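import Mathlib
import Pool.Agent.V11270.Sub.Gcd

set_option autoImplicit false

/-!
# Common divisors of `b ^ m` and `⌊β ⌊α b ^ m⌋ ^ 2⌋`
-/

namespace Pool.Agent.Results.MP_28dc30_nt.IteratedFloorGcd

open Finset Filter Topology Pool.Agent.V11270.Sub

/-- **For every integer base `b ≥ 2`, all irrational real algebraic numbers `α`, `β` and every
`ε > 0` one has `gcd(⌊β ⌊α b ^ m⌋ ^ 2⌋, b ^ m) < b ^ (ε m)` for all sufficiently large `m`.** -/
theorem result (b : ℕ) (hb : 2 ≤ b) (α β : ℝ) (hα : IsAlgebraic ℚ α) (hβ : IsAlgebraic ℚ β)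
    (hα' : Irrational α) (hβ' : Irrational β) (ε : ℝ) (hε : 0 < ε) :
    ∃ M : ℕ, ∀ m : ℕ, M ≤ m →
      ((Int.gcd ⌊β * ((⌊α * (b : ℝ) ^ m⌋ : ℤ) : ℝ) ^ 2⌋ ((b : ℤ) ^ m) : ℕ) : ℝ) <
        (b : ℝ) ^ (ε * m) := by
  by_contra hcon
  push Not at hcon
  have hb1 : (1 : ℝ) < b := by exact_mod_cast hb
  have hb0 : (0 : ℝ) < b := by linarith
  set x : ℕ → ℤ := fun m => ⌊α * (b : ℝ) ^ m⌋ with hxdef
  set w : ℕ → ℤ := fun m => ⌊β * (x m : ℝ) ^ 2⌋ with hwdef
  set g : ℕ → ℕ := fun m => Int.gcd (w m) ((b : ℤ) ^ m) with hgdef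
  set S : Set ℕ := {m : ℕ | (b : ℝ) ^ (ε * m) ≤ g m} with hSdef
  have hS : S.Infinite := by
    rw [Set.infinite_iff_exists_gt]
    intro M
    obtain ⟨m, hm, h⟩ := hcon (M + 1)
    exact ⟨m, h, by omega⟩
  -- fractional parts
  set θ : ℕ → ℝ := fun m => α * (b : ℝ) ^ m - x m with hθ
  set ψ : ℕ → ℝ := fun m => β * (x m : ℝ) ^ 2 - w m with hψ
  have hθ0 : ∀ m, 0 ≤ θ m := fun m => sub_nonneg.2 (Int.floor_le _)
  have hθ1 : ∀ m, θ m < 1 := fun m => by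
    have := Int.lt_floor_add_one (α * (b : ℝ) ^ m)
    simp only [hθ, hxdef]
    linarith
  have hψ0 : ∀ m, 0 ≤ ψ m := fun m => sub_nonneg.2 (Int.floor_le _)
  have hψ1 : ∀ m, ψ m < 1 := fun m => by
    have := Int.lt_floor_add_one (β * (x m : ℝ) ^ 2)
    simp only [hψ, hwdef]
    linarith
  have hxe : ∀ m, (x m : ℝ) = α * (b : ℝ) ^ m - θ m := fun m => by simp only [hθ]; ring
  have hwe : ∀ m, (w m : ℝ) = β * (x m : ℝ) ^ 2 - ψ m := fun m => by simp only [hψ]; ring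
  -- Ridout
  have hrid : ∀ P C : ℝ, {m : ℕ | |P| * (b : ℝ) ^ m * θ m ≤ C}.Infinite → P = 0 := by
    intro P C hinf
    obtain ⟨M, hM⟩ := ridout hb hα hα' (δ := 1 / 2) (by norm_num)
    have hb2 : (1 : ℝ) < (b : ℝ) ^ (1 / 2 : ℝ) := Real.one_lt_rpow hb1 (by norm_num)
    apply zero_of_inf hb2 P C
    refine (inf_large hinf M).mono ?_
    rintro m ⟨hm, hmM⟩
    have h1 := hM m hmM (x m)
    have h2 : |α * (b : ℝ) ^ m - x m| = θ m := abs_of_nonneg (hθ0 m)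
    rw [h2] at h1
    have h3 : (b : ℝ) ^ m = ((b : ℝ) ^ (1 / 2 : ℝ)) ^ m * (b : ℝ) ^ ((1 / 2 : ℝ) * m) := by
      rw [← Real.rpow_natCast ((b : ℝ) ^ (1 / 2 : ℝ)), ← Real.rpow_mul hb0.le,
        ← Real.rpow_add hb0, ← Real.rpow_natCast]
      congr 1
      ring
    have h4 : 1 ≤ (b : ℝ) ^ ((1 / 2 : ℝ) * m) * θ m := by
      have h5 : (b : ℝ) ^ ((1 / 2 : ℝ) * m) * (b : ℝ) ^ (-((1 / 2 : ℝ) * m)) = 1 := by
        rw [← Real.rpow_add hb0]
        simp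
      have h6 := mul_le_mul_of_nonneg_left h1.le
        (by positivity : (0 : ℝ) ≤ (b : ℝ) ^ ((1 / 2 : ℝ) * m))
      rwa [h5] at h6
    have hm' : |P| * (b : ℝ) ^ m * θ m ≤ C := hm
    calc |P| * ((b : ℝ) ^ (1 / 2 : ℝ)) ^ m = |P| * ((b : ℝ) ^ (1 / 2 : ℝ)) ^ m * 1 := by ring
      _ ≤ |P| * ((b : ℝ) ^ (1 / 2 : ℝ)) ^ m * ((b : ℝ) ^ ((1 / 2 : ℝ) * m) * θ m) :=
          mul_le_mul_of_nonneg_left h4 (by positivity)
      _ = |P| * (b : ℝ) ^ m * θ m := by rw [h3]; ring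
      _ ≤ C := hm'
  -- the subspace theorem
  obtain ⟨y, hy0, hy⟩ := sub_gcd hb (n := 4) (by norm_num)
    !![1, 0, 0, 0; -α, 1, 0, 0; α ^ 2, -(2 * α), 1, 0; 0, 0, -β, 1]
    (by
      have h2 : IsAlgebraic ℚ (2 : ℝ) := by exact_mod_cast (isAlgebraic_natCast (R := ℚ) (A := ℝ) 2)
      intro i j
      fin_cases i <;> fin_cases j <;>
        first
        | exact isAlgebraic_one
        | exact isAlgebraic_zero
        | exact hα.neg
        | exact hβ.neg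
        | exact hα.pow 2
        | exact (h2.mul hα).neg)
    (by
      simp [Matrix.det_succ_row_zero, Fin.sum_univ_succ, Fin.succAbove])
    ![2, 1, 0, 0] 3 g ε ![2, 1, 0, 0] 1 one_pos
    (by simp [Fin.sum_univ_succ]; linarith)
    (fun m => ![(b : ℤ) ^ (2 * m), (b : ℤ) ^ m * x m, x m ^ 2, w m]) S hS
    (by
      intro m _ h0
      have := congrFun h0 0
      simp at this
      omega)
    (by
      intro m _
      have h1 : ((Int.gcd (w m) ((b : ℤ) ^ m) : ℕ) : ℤ) ∣ (b : ℤ) ^ m := Int.gcd_dvd_right _ _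
      exact_mod_cast h1)
    (fun m hm => hm)
    (by
      intro m _ l
      fin_cases l
      · simp
      · simp
      · simp
      · simp only [Matrix.cons_val, Fin.reduceFinMk, zero_mul, pow_zero, if_true, one_mul]
        exact Int.gcd_dvd_left _ _)
    (by
      intro m _ l
      have hpos : 0 < (b : ℝ) ^ m := by positivity
      fin_cases l
      · simp [Fin.sum_univ_succ]
        rw [← Real.rpow_natCast]
        push_cast
        exact le_refl _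
      · simp [Fin.sum_univ_succ]
        have h1 : -(α * (b : ℝ) ^ (2 * m)) + (b : ℝ) ^ m * x m = -((b : ℝ) ^ m * θ m) := by
          rw [hxe m]
          ring
        rw [h1, abs_neg, abs_of_nonneg (mul_nonneg hpos.le (hθ0 m))]
        nlinarith [hθ1 m]
      · simp [Fin.sum_univ_succ]
        have h1 : α ^ 2 * (b : ℝ) ^ (2 * m) + (-(2 * α * ((b : ℝ) ^ m * x m)) + (x m : ℝ) ^ 2) =
            θ m ^ 2 := by
          rw [hxe m]
          ring
        rw [h1, abs_of_nonneg (sq_nonneg _)]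
        nlinarith [hθ1 m, hθ0 m]
      · simp [Fin.sum_univ_succ]
        have h1 : -(β * (x m : ℝ) ^ 2) + w m = -ψ m := by
          rw [hwe m]
          ring
        rw [h1, abs_neg, abs_of_nonneg (hψ0 m)]
        exact (hψ1 m).le)
  simp only [Fin.sum_univ_succ, Matrix.cons_val_zero, Matrix.cons_val_succ, Fin.succ_zero_eq_one,
    Fin.succ_one_eq_two, Finset.univ_eq_empty, Finset.sum_empty] at hy
  set c0 : ℝ := ((y 0 : ℤ) : ℝ) with hc0
  set c1 : ℝ := ((y 1 : ℤ) : ℝ) with hc1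
  set c2 : ℝ := ((y 2 : ℤ) : ℝ) with hc2
  set c3 : ℝ := ((y 3 : ℤ) : ℝ) with hc3
  have hrel : {m : ℕ | m ∈ S ∧ c0 * (b : ℝ) ^ (2 * m) + c1 * ((b : ℝ) ^ m * x m) +
      c2 * (x m : ℝ) ^ 2 + c3 * w m = 0}.Infinite := by
    refine hy.mono ?_
    rintro m ⟨hm, h⟩
    refine ⟨hm, ?_⟩
    have h' := congrArg (Int.cast : ℤ → ℝ) h
    push_cast at h'
    rw [hc0, hc1, hc2, hc3]
    linarith
  -- expansion
  set W : ℝ := c2 + c3 * β with hW
  have hexp : ∀ m, c0 * (b : ℝ) ^ (2 * m) + c1 * ((b : ℝ) ^ m * x m) +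
      c2 * (x m : ℝ) ^ 2 + c3 * w m = (c0 + c1 * α + W * α ^ 2) * (b : ℝ) ^ (2 * m) -
        (c1 + 2 * W * α) * ((b : ℝ) ^ m * θ m) + W * θ m ^ 2 - c3 * ψ m := by
    intro m
    rw [hwe m, hxe m, hW]
    ring
  have hlim : c0 + c1 * α + W * α ^ 2 = 0 := by
    apply zero_of_inf hb1 _ (|c1 + 2 * W * α| + |W| + |c3|)
    refine hrel.mono ?_
    rintro m ⟨_, h⟩
    rw [hexp m] at h
    have hpos : 1 ≤ (b : ℝ) ^ m := one_le_pow₀ hb1.le
    have h1 : (c0 + c1 * α + W * α ^ 2) * (b : ℝ) ^ (2 * m) =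
        (c1 + 2 * W * α) * ((b : ℝ) ^ m * θ m) - W * θ m ^ 2 + c3 * ψ m := by linarith
    have h2 : |c0 + c1 * α + W * α ^ 2| * (b : ℝ) ^ m * (b : ℝ) ^ m ≤
        (|c1 + 2 * W * α| + |W| + |c3|) * (b : ℝ) ^ m := by
      calc |c0 + c1 * α + W * α ^ 2| * (b : ℝ) ^ m * (b : ℝ) ^ m =
            |(c0 + c1 * α + W * α ^ 2) * (b : ℝ) ^ (2 * m)| := by
            rw [abs_mul, abs_of_pos (by positivity : 0 < (b : ℝ) ^ (2 * m))]
            ring
        _ = |(c1 + 2 * W * α) * ((b : ℝ) ^ m * θ m) - W * θ m ^ 2 + c3 * ψ m| := by rw [h1]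
        _ ≤ |(c1 + 2 * W * α) * ((b : ℝ) ^ m * θ m)| + |W * θ m ^ 2| + |c3 * ψ m| :=
            (abs_add_le _ _).trans (by gcongr; exact abs_sub _ _)
        _ = |c1 + 2 * W * α| * ((b : ℝ) ^ m * θ m) + |W| * θ m ^ 2 + |c3| * ψ m := by
            rw [abs_mul _ ((b : ℝ) ^ m * θ m), abs_mul _ (θ m ^ 2), abs_mul _ (ψ m),
              abs_of_nonneg (mul_nonneg (by positivity) (hθ0 m) : 0 ≤ (b : ℝ) ^ m * θ m),
              abs_of_nonneg (sq_nonneg (θ m)), abs_of_nonneg (hψ0 m)]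
        _ ≤ |c1 + 2 * W * α| * ((b : ℝ) ^ m * 1) + |W| * (1 * (b : ℝ) ^ m) +
            |c3| * (1 * (b : ℝ) ^ m) := by
            have h3 : θ m ^ 2 ≤ 1 * (b : ℝ) ^ m := by nlinarith [hθ0 m, hθ1 m]
            have h4 : ψ m ≤ 1 * (b : ℝ) ^ m := by nlinarith [hψ0 m, hψ1 m]
            gcongr
            exact (hθ1 m).le
        _ = _ := by ring
    exact le_of_mul_le_mul_right h2 (by linarith)
  have hlin : c1 + 2 * W * α = 0 := by
    apply hrid _ (|W| + |c3|)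
    refine hrel.mono ?_
    rintro m ⟨_, h⟩
    rw [hexp m, hlim] at h
    have h1 : (c1 + 2 * W * α) * ((b : ℝ) ^ m * θ m) = W * θ m ^ 2 - c3 * ψ m := by linarith
    calc |c1 + 2 * W * α| * (b : ℝ) ^ m * θ m = |(c1 + 2 * W * α) * ((b : ℝ) ^ m * θ m)| := by
          rw [abs_mul, abs_of_nonneg (mul_nonneg (by positivity) (hθ0 m) :
            0 ≤ (b : ℝ) ^ m * θ m)]
          ring
      _ = |W * θ m ^ 2 - c3 * ψ m| := by rw [h1]
      _ ≤ |W * θ m ^ 2| + |c3 * ψ m| := abs_sub _ _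
      _ = |W| * θ m ^ 2 + |c3| * ψ m := by
          rw [abs_mul, abs_mul, abs_of_nonneg (sq_nonneg (θ m)), abs_of_nonneg (hψ0 m)]
      _ ≤ |W| * 1 + |c3| * 1 := by
          have h3 : θ m ^ 2 ≤ 1 := by nlinarith [hθ0 m, hθ1 m]
          gcongr
          exact (hψ1 m).le
      _ = _ := by ring
  -- `α` is irrational
  have hα1 : ∀ p q : ℤ, (p : ℝ) + q * α = 0 → p = 0 ∧ q = 0 := by
    intro p q h
    have hq : q = 0 := by
      by_contra hq
      apply hα'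
      refine ⟨-(p : ℚ) / q, ?_⟩
      have hq' : (q : ℝ) ≠ 0 := by exact_mod_cast hq
      push_cast
      field_simp
      linarith
    refine ⟨?_, hq⟩
    rw [hq] at h
    simpa using h
  have hβ1 : ∀ p q : ℤ, (p : ℝ) + q * β = 0 → p = 0 ∧ q = 0 := by
    intro p q h
    have hq : q = 0 := by
      by_contra hq
      apply hβ'
      refine ⟨-(p : ℚ) / q, ?_⟩
      have hq' : (q : ℝ) ≠ 0 := by exact_mod_cast hq
      push_cast
      field_simp
      linarith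
    refine ⟨?_, hq⟩
    rw [hq] at h
    simpa using h
  have hα0 : α ≠ 0 := hα'.ne_zero
  have h5 : 2 * c0 + c1 * α = 0 := by linear_combination 2 * hlim - α * hlin
  obtain ⟨h6, h7⟩ := hα1 (2 * y 0) (y 1) (by push_cast; rw [hc0, hc1] at h5; exact h5)
  have hW0 : W = 0 := by
    have h8 : c1 = 0 := by rw [hc1, h7, Int.cast_zero]
    rw [h8] at hlin
    have h9 : W * α = 0 := by linarith
    exact (mul_eq_zero.1 h9).resolve_right hα0
  obtain ⟨h8, h9⟩ := hβ1 (y 2) (y 3) (by rw [hW, hc2, hc3] at hW0; exact hW0)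
  apply hy0
  funext l
  fin_cases l
  · show y 0 = 0
    omega
  · exact h7
  · exact h8
  · exact h9

end Pool.Agent.Results.MP_28dc30_nt.IteratedFloorGcd
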